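import Pool.Agent.L7h55.TN.Stm

/-!
# Project TN, part KRO
-/

set_option autoImplicit false

namespace Pool.Agent.L7h25.TN

open Pool.Agent.L7h55.TN IntermediateField

theorem s_KRO : S_KRO := by
  intro z hz hall
  have hzQ : IsIntegral ℚ z := hz.tower_top
  have : FiniteDimensional ℚ ℚ⟮z⟯ := adjoin.finiteDimensional hzQ
  have : NumberField ℚ⟮z⟯ := ⟨⟩
  obtain ⟨x, hx⟩ : ∃ x : ℚ⟮z⟯, x = AdjoinSimple.gen ℚ z := ⟨_, rfl⟩
  have hxz : (x : ℂ) = z := by
    rw [hx]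
    exact AdjoinSimple.coe_gen ℚ z
  have hinj : Function.Injective (algebraMap ℚ⟮z⟯ ℂ) := (algebraMap ℚ⟮z⟯ ℂ).injective
  have hxz' : algebraMap ℚ⟮z⟯ ℂ x = z := hxz
  have hxi : IsIntegral ℤ x := by
    rw [← isIntegral_algebraMap_iff hinj, hxz']
    exact hz
  have hroot : Polynomial.aeval x (minpoly ℤ z) = 0 := by
    apply hinj
    rw [map_zero, ← Polynomial.aeval_algebraMap_apply, hxz']
    exact minpoly.aeval ℤ z
  obtain ⟨n, hn, hxn⟩ := NumberField.Embeddings.pow_eq_one_of_norm_eq_one ℚ⟮z⟯ ℂ hxi (fun φ => by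
    apply hall
    have h1 : Polynomial.aeval (φ x) (minpoly ℤ z) = φ (Polynomial.aeval x (minpoly ℤ z)) := by
      rw [Polynomial.aeval_def, Polynomial.aeval_def, Polynomial.hom_eval₂]
      congr 1
      exact Subsingleton.elim _ _
    rw [h1, hroot, map_zero])
  refine ⟨n, hn, ?_⟩
  rw [← hxz', ← map_pow, hxn, map_one]

end Pool.Agent.L7h25.TN
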