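import Pool.Agent.L7h55.TN.Stm2

/-!
# Project TN, parts TWO, HE, OUT
-/

set_option autoImplicit false

namespace Pool.Agent.L7h25.TN

open Polynomial Pool.Agent.L7h55.TN

theorem fac_symm {A : ℕ} {f g : ℤ[X]} (h : Fac A f g) : Fac A g f :=
  ⟨by rw [mul_comm g f]; exact h.eq, h.dg, h.df, h.lg, h.lf⟩

theorem s_TWO (hR : S_RT) (hI : S_INT) : S_TWO := by
  intro A f g hA h
  by_contra hlt
  have h1 : f.leadingCoeff = 1 := by
    have := h.lf
    omega
  have hm : f.Monic := h1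
  have hdeg : f.degree ≠ 0 := by
    rw [degree_eq_natDegree hm.ne_zero]
    have := h.df
    exact_mod_cast this.ne'
  obtain ⟨z, hz⟩ := IsAlgClosed.exists_aeval_eq_zero ℂ f hdeg
  obtain ⟨r1, -, r3, r4⟩ := hR A f g hA h z hz
  have hint : IsIntegral ℤ z := ⟨f, hm, hz⟩
  rcases hI (2 * A + 1) (by omega) z r1 hint with r | r
  · exact r3 r
  · exact r4 r

theorem H_pos {f : ℤ[X]} (hf : ∀ x : ℝ, 0 < aeval x f) (a b : ℤ) (hb : 0 < b) : 0 < H f a b := by
  have hb' : (0 : ℝ) < b := by exact_mod_cast hb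
  have h1 : ((H f a b : ℤ) : ℝ) = (b : ℝ) ^ f.natDegree * aeval ((a : ℝ) / b) f := by
    rw [aeval_eq_sum_range, Finset.mul_sum]
    unfold H
    rw [Int.cast_sum]
    refine Finset.sum_congr rfl fun i hi => ?_
    have hi' : i ≤ f.natDegree := by
      have := Finset.mem_range.1 hi
      omega
    push_cast
    rw [zsmul_eq_mul, div_pow]
    have e1 : (b : ℝ) ^ f.natDegree = (b : ℝ) ^ i * (b : ℝ) ^ (f.natDegree - i) := by
      rw [← pow_add, Nat.add_sub_cancel' hi']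
    rw [e1]
    have e2 : (b : ℝ) ^ i ≠ 0 := pow_ne_zero _ hb'.ne'
    field_simp
  have h2 : (0 : ℝ) < ((H f a b : ℤ) : ℝ) := by
    rw [h1]
    exact mul_pos (pow_pos hb' _) (hf _)
  exact_mod_cast h2

theorem pos_of_mul_pos_of_pos_left' {a b : ℤ} (h : 0 < a * b) (ha : 0 < a) : 0 < b := by
  by_contra hb
  rw [not_lt] at hb
  exact absurd h (not_lt.2 (mul_nonpos_of_nonneg_of_nonpos ha.le hb))

theorem s_HE (hD : S_HD) (hP : S_HP) (hL : S_LC) (hO : S_POS) : S_HE := by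
  intro A f g hA h
  obtain ⟨u, hu⟩ := hD A f g hA h
  obtain ⟨w, hw⟩ := hD A g f hA (fac_symm h)
  have h1 := hP A f g hA h
  have h2 := (hL A f g hA h).1
  rw [hu, hw, ← h2, mul_pow] at h1
  have hf0 : f.leadingCoeff ^ (2 * A + 1) ≠ 0 := pow_ne_zero _ h.lf.ne'
  have hg0 : g.leadingCoeff ^ (2 * A + 1) ≠ 0 := pow_ne_zero _ h.lg.ne'
  have h3 : u * w = 1 := by
    apply mul_left_cancel₀ (mul_ne_zero hf0 hg0)
    rw [mul_one]
    refine Eq.trans ?_ h1
    ring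
  have hpos : 0 < H f A (A + 1) := H_pos (hO A f g hA h).1 _ _ (by positivity)
  have hu0 : 0 < u := by
    rw [hu] at hpos
    exact pos_of_mul_pos_of_pos_left' hpos (pow_pos h.lf _)
  rw [hu, Int.eq_one_of_mul_eq_one_right hu0.le h3, mul_one]

theorem modeq {A : ℕ} {D E : ℤ} {n : ℕ} (hDE : D * E = A) (hc : IsCoprime D E)
    (h1 : (A : ℤ) + 1 ∣ D ^ (n + 1) - D) (h2 : E ∣ D ^ (n + 1) - D) :
    ((A : ℤ) + 1) * E ∣ D ^ n - 1 := by
  have e : D ^ (n + 1) - D = D * (D ^ n - 1) := by ring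
  rw [e] at h1 h2
  have c1 : IsCoprime ((A : ℤ) + 1) D := by
    rw [← hDE]
    exact ⟨1, -E, by ring⟩
  have c2 : IsCoprime ((A : ℤ) + 1) E := by
    rw [← hDE]
    exact ⟨1, -D, by ring⟩
  exact c2.mul_dvd (c1.dvd_of_dvd_mul_left h1) (hc.symm.dvd_of_dvd_mul_left h2)

theorem nat_modeq {A : ℕ} {D E : ℤ} {n : ℕ} (hD : 0 ≤ D) (hE : 0 ≤ E) (h : ((A : ℤ) + 1) * E ∣ D ^ n - 1) :
    D.toNat ^ n ≡ 1 [MOD (A + 1) * E.toNat] := by
  rw [Nat.ModEq.comm, Nat.modEq_iff_dvd]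
  push_cast
  rw [Int.toNat_of_nonneg hD, Int.toNat_of_nonneg hE]
  exact h

theorem s_OUT (hL : S_LC) (hC : S_COP) (hE : S_HE) (hO : S_POS) (hK : S_CON) (hG : S_CG) (hT : S_TWO) :
    S_OUT := by
  intro A f g hA h
  have h' := fac_symm h
  have hl := (hL A f g hA h).1
  have hcop := hC A f g hA h
  have key : ∀ f g : ℤ[X], Fac A f g → f.leadingCoeff * g.leadingCoeff = A →
      IsCoprime f.leadingCoeff g.leadingCoeff →
      ((A : ℤ) + 1) * g.leadingCoeff ∣ f.leadingCoeff ^ (2 * A) - 1 := by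
    intro f g h hl hcop
    obtain ⟨k1, k2⟩ := hG A f g.leadingCoeff (hO A f g hA h).2 (hK A f g hA h) ⟨f.leadingCoeff, by
      rw [mul_comm]; exact hl.symm⟩
    rw [hE A f g hA h] at k1 k2
    exact modeq hl hcop k1 k2
  have hl' : g.leadingCoeff * f.leadingCoeff = A := by rw [mul_comm]; exact hl
  have k1 := nat_modeq h.lf.le h.lg.le (key f g h hl hcop)
  have k2 := nat_modeq h.lg.le h.lf.le (key g f h' hl' hcop.symm)
  refine ⟨f.leadingCoeff.toNat, g.leadingCoeff.toNat, ?_, ?_, ?_, ?_, k1, k2⟩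
  · have := hT A f g hA h
    omega
  · have := hT A g f hA h'
    omega
  · have e : IsCoprime ((f.leadingCoeff.toNat : ℕ) : ℤ) ((g.leadingCoeff.toNat : ℕ) : ℤ) := by
      rw [Int.toNat_of_nonneg h.lf.le, Int.toNat_of_nonneg h.lg.le]
      exact hcop
    exact Nat.isCoprime_iff_coprime.1 e
  · have e : ((f.leadingCoeff.toNat * g.leadingCoeff.toNat : ℕ) : ℤ) = (A : ℤ) := by
      push_cast
      rw [Int.toNat_of_nonneg h.lf.le, Int.toNat_of_nonneg h.lg.le]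
      exact hl
    exact_mod_cast e

end Pool.Agent.L7h25.TN
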